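import Pool.Agent.Helper76.TH7.StC7

/-!
# Project TH7, module UBH7: the upper bound UB for new symbols of level 2 * 7^n
-/

set_option autoImplicit false

namespace Pool.Agent.Helper33.TH7

open Pool.Agent.Helper14.CV (Homog EqC act Tl StFar StFex)
open Pool.Agent.Helper14.W5
open Pool.Agent.Helper76.TH7 Pool.Agent.Helper76.S7 Pool.Agent.Helper93.TLH

/-- The function `edgeH` of the transported potential as a linear map. -/
private noncomputable def Ls (μ k m : ℕ) (u1 u2 v1 v2 : ℤ) :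
    (ℤ → ℤ → ℂ) →ₗ[ℂ] (Pt m → ℂ) where
  toFun G := fun p : Pt m => edgeH μ u1 u2 v1 v2 (act 1 0 0 (7 ^ k) G) p.1 p.2
  map_add' G H := by
    funext p
    simp only [edgeH, act, Pi.add_apply]
    ring
  map_smul' c G := by
    funext p
    simp only [edgeH, act, Pi.smul_apply, smul_eq_mul, RingHom.id_apply]
    ring

/-- Three functions. -/
private noncomputable def L3 (k : ℕ) :
    (ℤ → ℤ → ℂ) →ₗ[ℂ] (((Pt k → ℂ) × (Pt k → ℂ)) × (Pt k → ℂ)) :=
  ((Ls 0 k k 1 0 0 1).prod (Ls 0 k k 1 0 1 2)).prod (Ls 0 k k 1 0 2 7)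

/-- Seven functions. -/
private noncomputable def L7 (k m : ℕ) : (ℤ → ℤ → ℂ) →ₗ[ℂ]
    (((Pt m → ℂ) × (Pt m → ℂ)) × ((Pt m → ℂ) × (Pt m → ℂ)) ×
      ((Pt m → ℂ) × (Pt m → ℂ) × (Pt m → ℂ))) :=
  ((Ls 1 k m 1 0 0 1).prod (Ls 1 k m 1 1 3 4)).prod
    (((Ls 1 k m 1 0 1 1).prod (Ls 1 k m 1 1 4 3)).prod
      ((Ls 1 k m 4 3 3 2).prod ((Ls 1 k m 3 2 2 1).prod (Ls 1 k m 2 1 5 2))))

private theorem build (n D : ℕ) {W : Type} [AddCommGroup W] [Module ℂ W] [Module.Finite ℂ W]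
    (hW : Module.finrank ℂ W ≤ D) (L : NSH 7 n →ₗ[ℂ] W)
    (hinj : ∀ G : NSH 7 n, L G = 0 → EqC (G : ℤ → ℤ → ℂ) 0) :
    ∃ Θ : NSH 7 n →ₗ[ℂ] (Fin D → ℂ), ∀ G : NSH 7 n, Θ G = 0 → EqC (G : ℤ → ℤ → ℂ) 0 := by
  have h0 : Module.finrank ℂ W ≤ Module.finrank ℂ (Fin D → ℂ) := by simpa using hW
  obtain ⟨e, he⟩ := finrank_le_iff_exists_linearMap.1 h0
  refine ⟨e.comp L, fun G hG => hinj G ?_⟩
  apply he
  rw [map_zero]
  exact hG

/-- Module UBH7. -/
theorem hUBH7 : StHUB7 := by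
  intro hBal hE1a hE1b hO1 hDimE hDimO n hn
  rcases Nat.even_or_odd' n with ⟨k, hk | hk⟩
  · -- even exponent
    subst hk
    have hk2 : 2 ≤ k := by omega
    have key : ∀ G ∈ NSH 7 (2 * k), L7 k (k - 1) G ∈ subEH (k - 1) ∧
        (L7 k (k - 1) G = 0 → EqC G 0) := by
      intro G hG
      have hN : NewSymH 7 (2 * k) G := hG
      have hB := (hBal k G (by omega)).1 hN
      have a1 := hE1a k _ hk2 hB
      have a2 := hE1b k _ hk2 hB
      refine ⟨a1, fun h0 => ?_⟩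
      have h1 := congrArg (fun z => z.1.1) h0
      have h2 := congrArg (fun z => z.1.2) h0
      have h3 := congrArg (fun z => z.2.1.1) h0
      have h4 := congrArg (fun z => z.2.1.2) h0
      have h5 := congrArg (fun z => z.2.2.1) h0
      have h6 := congrArg (fun z => z.2.2.2.1) h0
      have h7 := congrArg (fun z => z.2.2.2.2) h0
      have h8 := a2 (fun x y => ⟨⟨congrFun h1 (x, y), congrFun h2 (x, y)⟩,
        ⟨congrFun h3 (x, y), congrFun h4 (x, y)⟩,
        ⟨congrFun h5 (x, y), congrFun h6 (x, y), congrFun h7 (x, y)⟩⟩)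
      exact (hBal k G (by omega)).2.2 hN.1.1 h8
    have hd : ddH7 (2 * k) = 126 * 49 ^ (k - 2) := by
      have h2k : 2 * k / 2 = k := by omega
      unfold ddH7
      rw [if_neg (by omega), h2k]
    rw [hd]
    let L1 : NSH 7 (2 * k) →ₗ[ℂ] subEH (k - 1) :=
      ((L7 k (k - 1)).comp (NSH 7 (2 * k)).subtype).codRestrict (subEH (k - 1))
        (fun G => (key G G.2).1)
    refine build (2 * k) _ ?_ L1 (fun G hG => ?_)
    · rw [hDimE (k - 1) (by omega)]
      have e : k - 1 - 1 = k - 2 := by omega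
      rw [e]
    · exact (key G G.2).2 (congrArg Subtype.val hG)
  · -- odd exponent
    subst hk
    have hk1 : 1 ≤ k := by omega
    have key : ∀ G ∈ NSH 7 (2 * k + 1), L3 k G ∈ subOH k ∧ (L3 k G = 0 → EqC G 0) := by
      intro G hG
      have hN : NewSymH 7 (2 * k + 1) G := hG
      have hB := (hBal k G hk1).2.1 hN
      obtain ⟨a1, a2⟩ := hO1 k _ hk1 hB
      refine ⟨a1, fun h0 => ?_⟩
      have h1 := congrArg (fun z => z.1.1) h0
      have h2 := congrArg (fun z => z.1.2) h0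
      have h3 := congrArg (fun z => z.2) h0
      have h4 := a2 (fun x y => ⟨congrFun h1 (x, y), congrFun h2 (x, y), congrFun h3 (x, y)⟩)
      exact (hBal k G hk1).2.2 hN.1.1 h4
    have hd : ddH7 (2 * k + 1) = 18 * 49 ^ (k - 1) + 6 * 7 ^ (k - 1) := by
      have h2k : (2 * k + 1) / 2 = k := by omega
      unfold ddH7
      rw [if_pos (by omega), h2k]
    rw [hd]
    let L1 : NSH 7 (2 * k + 1) →ₗ[ℂ] subOH k :=
      ((L3 k).comp (NSH 7 (2 * k + 1)).subtype).codRestrict (subOH k)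
        (fun G => (key G G.2).1)
    refine build (2 * k + 1) _ ?_ L1 (fun G hG => ?_)
    · rw [hDimO k hk1]
    · exact (key G G.2).2 (congrArg Subtype.val hG)

end Pool.Agent.Helper33.TH7
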