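import Pool.Agent.Helper14.TH7.StD
import Pool.Agent.Helper93.TLH.GenN

/-!
# Project TH7: the rows of the Hecke operators `T_3`, `T_5`, `T_11`
-/

set_option autoImplicit false
set_option maxRecDepth 100000

namespace Pool.Agent.Helper33.TH7

open Pool.Agent.Helper14.CV (Homog EqC act Tl)
open Pool.Agent.Helper14.TH7
open Pool.Agent.Helper4.S7 (Tm)
open Pool.Agent.Helper76.TH7 (edgeH rYH)
open Pool.Agent.Helper84.S7 (tr7 Fn7 opL op7 S7Trm)
open Pool.Agent.Helper93.TLH (HTy SymH ChkN row_of_chkN B4)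

private theorem opL_apply7 (L : List Tm) {q q' : ℕ} (F : Fn7 q q') (x : ZMod q) (y : ZMod q') :
    opL L F x y = (L.map fun t => t.1 • tr7 t.2.1 t.2.2.1 t.2.2.2.1 t.2.2.2.2 F x y).sum := by
  induction L with
  | nil => simp [opL]
  | cons t L ih =>
    have e : opL (t :: L) F x y = (((t.1 : ℤ) : ZMod 7) • op7 t.2.1 t.2.2.1 t.2.2.2.1 t.2.2.2.2) F x y +
        opL L F x y := by
      simp [opL]
    rw [e, ih, List.map_cons, List.sum_cons, zsmul_eq_mul]
    rfl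

/-- The list of pairs (path, term). -/
def tT (L0 L1 L2 : List Tm) : List (B4 × Tm) :=
  (L0.map fun t => (((1, 0, 0, 1) : B4), t)) ++ (L1.map fun t => (((1, 2, 0, 1) : B4), t)) ++
    (L2.map fun t => (((1, 4, 0, 1) : B4), t))

theorem row7 (hf : THkF) (ht : TTre) (hm : S7Trm) (l : ℕ) (hl : l.Prime) (hl7 : l ≠ 7) (hl2 : l ≠ 2)
    (J : List ℤ) (hJn : J.Nodup) (hJl : J.length = l)
    (hJd : ∀ j ∈ J, ∀ j' ∈ J, (l : ℤ) ∣ j - j' → j = j')
    (u1 u2 v1 v2 : ℤ) (hu : u1 ≠ 0 ∨ u2 ≠ 0) (hv : v1 ≠ 0 ∨ v2 ≠ 0) (L0 L1 L2 : List Tm)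
    (hc : ChkN 1 7 l J u1 u2 v1 v2 (tT L0 L1 L2))
    (r s : ℕ) (G : ℤ → ℤ → ZMod 7) (hG : SymH 7 r (s + 1) G) :
    (edgeH 0 u1 u2 v1 v2 (Tl l (7 ^ r) G) : Fn7 (7 ^ r) (7 ^ s)) =
      opL L0 (pfH G 0) + opL L1 (pfH G 1) + opL L2 (pfH G 2) := by
  funext x y
  have hl0 : (l : ℤ) ≠ 0 := by exact_mod_cast hl.ne_zero
  have hpl : ¬ (7 : ℤ) ∣ (l : ℤ) := by
    intro h
    have h' : (7 : ℕ) ∣ l := by exact_mod_cast h
    exact hl7 (((Nat.prime_dvd_prime_iff_eq (by norm_num) hl).1 h').symm)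
  have hF := hf (ZMod 7) inferInstance r s l G J.toFinset hl hl7 hl2 hG
    (by rw [List.toFinset_card_of_nodup hJn, hJl])
    (fun j hj j' hj' => hJd j (List.mem_toFinset.1 hj) j' (List.mem_toFinset.1 hj'))
    u1 u2 v1 v2 hu hv x y
  rw [List.sum_toFinset _ hJn] at hF
  have key := row_of_chkN (R := ZMod 7) (X := ZMod (7 ^ r) × ZMod (7 ^ s)) 7 1 7 l hl0
    (by norm_num) hpl (by norm_num) (by norm_num) J
    (fun a b c d F z => tr7 a b c d (fun x y => F (x, y)) z.1 z.2)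
    (fun a b c d => ⟨fun z => (((b : ZMod (7 ^ r)) + d * z.1) * ((a : ZMod (7 ^ r)) + 7 * c * z.1)⁻¹,
      ((c : ZMod (7 ^ s)) + a * z.2) * ((d : ZMod (7 ^ s)) + 7 * b * z.2)⁻¹), fun F z => rfl⟩)
    (fun F a b c d a' b' c' d' ha hd ha' hd' => by
      funext z
      have h := (hm (ZMod 7) r s (fun x y => F (x, y))).1 a b c d a' b' c' d' ha hd ha' hd'
      rw [one_mul]
      exact congrFun (congrFun h z.1) z.2)
    (fun u1 u2 v1 v2 z => edgeH 0 u1 u2 v1 v2 G z.1 z.2) G hG.1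
    (fun z => ⟨1, 1, 7 ^ 0 * (z.1.val : ℤ), 7 * rYH 0 z.1 z.2,
      1 + 7 ^ (0 + 1) * (z.1.val : ℤ) * rYH 0 z.1 z.2, by
        have : (1 : ℤ) * (1 + 7 ^ (0 + 1) * (z.1.val : ℤ) * rYH 0 z.1 z.2) -
          (7 ^ 0 * (z.1.val : ℤ)) * (7 * rYH 0 z.1 z.2) = 1 := by ring
        rw [this]; exact one_ne_zero,
      fun u1 u2 v1 v2 => by
        unfold edgeH
        simp only [one_mul, one_smul]⟩)
    (fun a b c d u1 u2 v1 v2 hd hu hv z => by
      rw [one_mul] at hd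
      have h := ht (ZMod 7) inferInstance r s G hG a b c d u1 u2 v1 v2 hd hu hv z.1 z.2
      simp only [one_mul]
      exact h)
    u1 u2 v1 v2 (tT L0 L1 L2) hc
    (edgeH 0 u1 u2 v1 v2 (Tl l (7 ^ r) G) x y) (x, y) (by
      rw [hF]
      simp only [one_mul])
  rw [key]
  show _ = opL L0 (pfH G 0) x y + opL L1 (pfH G 1) x y + opL L2 (pfH G 2) x y
  rw [opL_apply7, opL_apply7, opL_apply7]
  unfold tT
  rw [List.map_append, List.map_append, List.sum_append, List.sum_append, List.map_map,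
    List.map_map, List.map_map]
  rfl

/-- HK3. -/
theorem hHk3 (hf : THkF) (ht : TTre) (hm : S7Trm) : THk 3 T3H := by
  intro r s G hG i
  rw [Fin.sum_univ_three]
  fin_cases i
  · exact row7 hf ht hm 3 (by norm_num) (by norm_num) (by norm_num) [-1, 0, 1] (by decide) rfl
      (by decide) 1 0 0 1 (Or.inl one_ne_zero) (Or.inr one_ne_zero) (T3H 0 0) (T3H 0 1) (T3H 0 2)
      (by decide +kernel) r s G hG
  · exact row7 hf ht hm 3 (by norm_num) (by norm_num) (by norm_num) [-1, 0, 1] (by decide) rfl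
      (by decide) 1 2 0 1 (Or.inl one_ne_zero) (Or.inr one_ne_zero) (T3H 1 0) (T3H 1 1) (T3H 1 2)
      (by decide +kernel) r s G hG
  · exact row7 hf ht hm 3 (by norm_num) (by norm_num) (by norm_num) [-1, 0, 1] (by decide) rfl
      (by decide) 1 4 0 1 (Or.inl one_ne_zero) (Or.inr one_ne_zero) (T3H 2 0) (T3H 2 1) (T3H 2 2)
      (by decide +kernel) r s G hG

/-- HK5. -/
theorem hHk5 (hf : THkF) (ht : TTre) (hm : S7Trm) : THk 5 T5H := by
  intro r s G hG i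
  rw [Fin.sum_univ_three]
  fin_cases i
  · exact row7 hf ht hm 5 (by norm_num) (by norm_num) (by norm_num) [-2, -1, 0, 1, 2] (by decide) rfl
      (by decide) 1 0 0 1 (Or.inl one_ne_zero) (Or.inr one_ne_zero) (T5H 0 0) (T5H 0 1) (T5H 0 2)
      (by decide +kernel) r s G hG
  · exact row7 hf ht hm 5 (by norm_num) (by norm_num) (by norm_num) [-2, -1, 0, 1, 2] (by decide) rfl
      (by decide) 1 2 0 1 (Or.inl one_ne_zero) (Or.inr one_ne_zero) (T5H 1 0) (T5H 1 1) (T5H 1 2)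
      (by decide +kernel) r s G hG
  · exact row7 hf ht hm 5 (by norm_num) (by norm_num) (by norm_num) [-2, -1, 0, 1, 2] (by decide) rfl
      (by decide) 1 4 0 1 (Or.inl one_ne_zero) (Or.inr one_ne_zero) (T5H 2 0) (T5H 2 1) (T5H 2 2)
      (by decide +kernel) r s G hG

/-- HK11. -/
theorem hHk11 (hf : THkF) (ht : TTre) (hm : S7Trm) : THk 11 T11H := by
  intro r s G hG i
  rw [Fin.sum_univ_three]
  fin_cases i
  · exact row7 hf ht hm 11 (by norm_num) (by norm_num) (by norm_num)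
      [-5, -4, -3, -2, -1, 0, 1, 2, 3, 4, 5] (by decide) rfl (by decide +kernel) 1 0 0 1
      (Or.inl one_ne_zero) (Or.inr one_ne_zero) (T11H 0 0) (T11H 0 1) (T11H 0 2)
      (by decide +kernel) r s G hG
  · exact row7 hf ht hm 11 (by norm_num) (by norm_num) (by norm_num)
      [-5, -4, -3, -2, -1, 0, 1, 2, 3, 4, 5] (by decide) rfl (by decide +kernel) 1 2 0 1
      (Or.inl one_ne_zero) (Or.inr one_ne_zero) (T11H 1 0) (T11H 1 1) (T11H 1 2)
      (by decide +kernel) r s G hG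
  · exact row7 hf ht hm 11 (by norm_num) (by norm_num) (by norm_num)
      [-5, -4, -3, -2, -1, 0, 1, 2, 3, 4, 5] (by decide) rfl (by decide +kernel) 1 4 0 1
      (Or.inl one_ne_zero) (Or.inr one_ne_zero) (T11H 2 0) (T11H 2 1) (T11H 2 2)
      (by decide +kernel) r s G hG

end Pool.Agent.Helper33.TH7
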